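import Pool.Agent.TH787.Sil.Main
import Pool.Agent.TH787.Sil.Zfc
import Pool.Agent.TH262.J1189

set_option autoImplicit false

/-!
# MP_4c1ea5_lc, Question 2: the answer is no

`ZFC` does not prove that some Turing ideal generates a nonempty closed proper subspace of the
space of coarse similarity classes.

* First part of `result` (a theorem of ZFC, to be used in the generic extension): if some set `K`
  injects into the power set of `ℕ` and satisfies the freezing principle `Freeze K`, then the only
  Turing ideal which generates a closed subspace is the set of all subsets of `ℕ`, and the subspace
  it generates is the whole space.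
* Second part: there are a forcing `P` (the countable support product of `K` copies of Silver
  forcing, where `K` has cardinality the successor of the continuum) and a set `K` such that every
  condition forces that `K` injects into the power set of `ℕ` and that the freezing principle holds
  for `K`. Here `InjectsN P K` and `FreezeN P K` are `Injects K` and `Freeze K` written out in the
  forcing language of `Pool.Agent.Helper669.Forcing`: a sentence is the set of the conditions
  forcing it, names of subsets of a ground model set are families of sets of conditions, and a
  name of a family indexed by `K` is a family of names.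
-/

namespace Pool.Agent.Results.MP_4c1ea5_lc.NoClosedIdeal

open Pool.Agent.Results.MP_4c1ea5_lc.ZFCClosed (TuringLE generated cls CoarseSpace)
open Pool.Agent.TH787.Sil

theorem result :
    (∀ K : Type, Injects K → Freeze K → ∀ U : Set (Set ℕ), TuringIdeal U → IsClosed (generated U) →
      U = Set.univ ∧ generated U = Set.univ) ∧
    ∃ (P : Type) (_ : Preorder P) (K : Type), Nonempty P ∧
      ∀ p : P, p ∈ InjectsN P K ∧ p ∈ FreezeN P K := by
  refine ⟨fun K hI hF U hU hc => ?_, ?_⟩
  · have h : U = Set.univ := eq_univ hI hF hU (fun D hD => matrix hU hc D hD)
    refine ⟨h, ?_⟩
    rw [h]
    refine Set.eq_univ_of_forall fun a => ?_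
    obtain ⟨A, hA⟩ : ∃ A, cls A = a := Quotient.exists_rep a
    exact ⟨A, Set.mem_univ A, hA⟩
  · obtain ⟨K, hK⟩ := exists_K
    exact ⟨Cnd K, inferInstance, K, ⟨one K⟩, hK⟩

end Pool.Agent.Results.MP_4c1ea5_lc.NoClosedIdeal
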